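import Pool.Agent.Lib.MP_146573_gt.Defs

namespace Pool.Agent.Lib.MP_146573_gt

noncomputable section

theorem cobdry_zero_apply {Y : Type} [TopologicalSpace Y] (φ : Simplex Y 0 → ℚ)
    (σ : Simplex Y 1) : cobdry φ σ = φ (face 0 σ) - φ (face 1 σ) := by
  show ∑ i : Fin 2, (-1) ^ (i : ℕ) * φ (face i σ) = _
  simp [Fin.sum_univ_two, sub_eq_add_neg]

theorem simplex_zero_eq {Y : Type} [TopologicalSpace Y] (σ : Simplex Y 0) :
    σ = ContinuousMap.const _ (σ (stdSimplex.vertex 0)) := by
  ext x
  rw [Subsingleton.elim x (stdSimplex.vertex 0)]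
  rfl

theorem face_zero_eq {Y : Type} [TopologicalSpace Y] (σ : Simplex Y 1) :
    face 0 σ = ContinuousMap.const _ (σ (stdSimplex.vertex 1)) := by
  rw [simplex_zero_eq (face 0 σ)]
  congr 1
  show σ (stdSimplex.map _ _) = _
  rw [stdSimplex.map_vertex]
  rfl

theorem face_one_eq {Y : Type} [TopologicalSpace Y] (σ : Simplex Y 1) :
    face 1 σ = ContinuousMap.const _ (σ (stdSimplex.vertex 0)) := by
  rw [simplex_zero_eq (face 1 σ)]
  congr 1
  show σ (stdSimplex.map _ _) = _
  rw [stdSimplex.map_vertex]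
  rfl

theorem cocycle_const_eq {Y : Type} [TopologicalSpace Y] [PathConnectedSpace Y]
    (ψ : Simplex Y 0 → ℚ) (h : cobdry ψ = 0) (p q : Y) :
    ψ (ContinuousMap.const _ p) = ψ (ContinuousMap.const _ q) := by
  let γ : Path p q := PathConnectedSpace.somePath p q
  let σ : Simplex Y 1 :=
    γ.toContinuousMap.comp ⟨stdSimplexHomeomorphUnitInterval,
      stdSimplexHomeomorphUnitInterval.continuous⟩
  have h1 : cobdry ψ σ = 0 := by rw [h]; rfl
  rw [cobdry_zero_apply, face_zero_eq, face_one_eq] at h1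
  have e0 : σ (stdSimplex.vertex 0) = p := by
    show γ (stdSimplexHomeomorphUnitInterval _) = p
    have : stdSimplexHomeomorphUnitInterval (stdSimplex.vertex 0) = 0 :=
      stdSimplexHomeomorphUnitInterval_zero
    rw [this, γ.source]
  have e1 : σ (stdSimplex.vertex 1) = q := by
    show γ (stdSimplexHomeomorphUnitInterval _) = q
    have : stdSimplexHomeomorphUnitInterval (stdSimplex.vertex 1) = 1 :=
      stdSimplexHomeomorphUnitInterval_one
    rw [this, γ.target]
  rw [e0, e1] at h1
  linarith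

theorem sign_const {X : Type} [TopologicalSpace X] [PreconnectedSpace X] (u : X → ℝ)
    (hu : Continuous u) (h0 : ∀ x, u x ≠ 0) (a b : X) : 0 < u a ↔ 0 < u b := by
  have key : ∀ a b : X, 0 < u a → 0 < u b := by
    intro a b ha
    by_contra hb
    have hb' : u b ≤ 0 := not_lt.mp hb
    have := intermediate_value_univ b a hu (show (0 : ℝ) ∈ Set.Icc (u b) (u a) from ⟨hb', ha.le⟩)
    obtain ⟨x, hx⟩ := this
    exact h0 x hx
  exact ⟨key a b, key b a⟩

theorem not_surjective_pullback_zero {Y' Y : Type} [TopologicalSpace Y'] [TopologicalSpace Y]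
    [PathConnectedSpace Y] (f : C(Y', Y)) (D : Y' → ℝ) (hD : Continuous D) (h0 : ∀ y, D y ≠ 0)
    (p q : Y') (hp : 0 < D p) (hq : D q < 0) : ¬ Function.Surjective (pullback f 0) := by
  classical
  intro hs
  let φ : Simplex Y' 0 → ℚ := fun σ => if 0 < D (σ (stdSimplex.vertex 0)) then 1 else 0
  have hφ : cobdry φ = 0 := by
    funext σ
    rw [cobdry_zero_apply, face_zero_eq, face_one_eq]
    have := sign_const (fun x => D (σ x)) (hD.comp σ.continuous) (fun x => h0 _)
      (stdSimplex.vertex 1) (stdSimplex.vertex 0)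
    simp only [φ, ContinuousMap.const_apply, Pi.zero_apply]
    by_cases h : 0 < D (σ (stdSimplex.vertex 0))
    · rw [if_pos h, if_pos (this.mpr h), sub_self]
    · rw [if_neg h, if_neg (fun h' => h (this.mp h')), sub_self]
  obtain ⟨c, hc⟩ := hs (Quot.mk _ ⟨φ, hφ⟩)
  obtain ⟨⟨ψ, hψ⟩, rfl⟩ := Quot.exists_rep c
  let ev : SingCoh Y' 0 → (Simplex Y' 0 → ℚ) :=
    Quot.lift (fun χ : Cocycle Y' 0 => χ.1) (fun a b h => sub_eq_zero.mp h)
  have h2 : pullCochain f ψ = φ := congrArg ev hc
  have e1 : φ (ContinuousMap.const _ p) = 1 := by simp [φ, hp]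
  have e2 : φ (ContinuousMap.const _ q) = 0 := by simp [φ, not_lt.mpr hq.le]
  have e3 : φ (ContinuousMap.const _ p) = ψ (ContinuousMap.const _ (f p)) := by rw [← h2]; rfl
  have e4 : φ (ContinuousMap.const _ q) = ψ (ContinuousMap.const _ (f q)) := by rw [← h2]; rfl
  have e5 := cocycle_const_eq ψ hψ (f p) (f q)
  rw [← e3, ← e4, e1, e2] at e5
  exact one_ne_zero e5

/-- Along every forward solution of the negative gradient flow of a differentiable function the
function does not increase. -/
theorem flow_le {V : Type} [NormedAddCommGroup V] [InnerProductSpace ℝ V] [CompleteSpace V]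
    (f : V → ℝ) (hf : Differentiable ℝ f) (T : ℝ) (γ : ℝ → V)
    (hγ : ∀ t ∈ Set.Icc 0 T, HasDerivWithinAt γ (-gradient f (γ t)) (Set.Icc 0 T) t) :
    ∀ t ∈ Set.Icc 0 T, f (γ t) ≤ f (γ 0) := by
  have hd : ∀ t ∈ Set.Icc 0 T, HasDerivWithinAt (fun s => f (γ s))
      (-‖gradient f (γ t)‖ ^ 2) (Set.Icc 0 T) t := by
    intro t ht
    have h1 := (hf (γ t)).hasGradientAt.hasFDerivAt
    have h2 := h1.comp_hasDerivWithinAt t (hγ t ht)
    have h3 : (InnerProductSpace.toDual ℝ V (gradient f (γ t))) (-gradient f (γ t))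
        = -‖gradient f (γ t)‖ ^ 2 := by
      rw [InnerProductSpace.toDual_apply_apply, inner_neg_right, real_inner_self_eq_norm_sq]
    rw [h3] at h2
    exact h2
  have hanti : AntitoneOn (fun s => f (γ s)) (Set.Icc 0 T) := by
    apply antitoneOn_of_deriv_nonpos (convex_Icc 0 T)
    · exact fun t ht => (hd t ht).continuousWithinAt
    · intro t ht
      have ht' := interior_subset ht
      exact ((hd t ht').hasDerivAt (mem_interior_iff_mem_nhds.mp ht)).differentiableAt.differentiableWithinAt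
    · intro t ht
      have ht' := interior_subset ht
      rw [((hd t ht').hasDerivAt (mem_interior_iff_mem_nhds.mp ht)).deriv]
      exact neg_nonpos.mpr (sq_nonneg _)
  intro t ht
  exact hanti ⟨le_refl 0, ht.1.trans ht.2⟩ ht ht.1

end

end Pool.Agent.Lib.MP_146573_gt
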