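import Mathlib

/-!
Definitions for MP_146573_gt: rational singular cohomology, Borel constructions, and linear
hyperHamiltonian actions on flat hyperKaehler spaces.
-/

open scoped RealInnerProductSpace

namespace Pool.Agent.Lib.MP_146573_gt

noncomputable section

section cohomology

variable {Y' Y : Type} [TopologicalSpace Y'] [TopologicalSpace Y]

/-- Singular `n`-simplices of `Y`. -/
abbrev Simplex (Y : Type) [TopologicalSpace Y] (n : ℕ) : Type :=
  C(stdSimplex ℝ (Fin (n + 1)), Y)

/-- The `i`-th face of a singular simplex. -/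
def face {n : ℕ} (i : Fin (n + 2)) (σ : Simplex Y (n + 1)) : Simplex Y n :=
  σ.comp ⟨stdSimplex.map i.succAbove, stdSimplex.continuous_map _⟩

/-- The coboundary of a rational singular cochain: the alternating sum over the faces. -/
def cobdry {n : ℕ} (φ : Simplex Y n → ℚ) : Simplex Y (n + 1) → ℚ :=
  fun σ => ∑ i : Fin (n + 2), (-1) ^ (i : ℕ) * φ (face i σ)

/-- Being a coboundary in degree `n`. -/
def IsCobdry : (n : ℕ) → (Simplex Y n → ℚ) → Prop
  | 0, φ => φ = 0
  | n + 1, φ => ∃ ψ : Simplex Y n → ℚ, cobdry ψ = φ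

/-- Rational singular cocycles. -/
def Cocycle (Y : Type) [TopologicalSpace Y] (n : ℕ) : Type :=
  {φ : Simplex Y n → ℚ // cobdry φ = 0}

/-- Rational singular cohomology in degree `n`: cocycles modulo coboundaries. -/
def SingCoh (Y : Type) [TopologicalSpace Y] (n : ℕ) : Type :=
  Quot fun φ ψ : Cocycle Y n => IsCobdry n (φ.1 - ψ.1)

/-- Pullback of cochains along a continuous map. -/
def pullCochain (f : C(Y', Y)) {n : ℕ} (φ : Simplex Y n → ℚ) : Simplex Y' n → ℚ :=
  fun σ => φ (f.comp σ)

theorem pullCochain_cocycle (f : C(Y', Y)) {n : ℕ} (φ : Cocycle Y n) :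
    cobdry (pullCochain f φ.1) = 0 :=
  congrArg (pullCochain f) φ.2

theorem pullCochain_isCobdry (f : C(Y', Y)) {n : ℕ} (φ ψ : Cocycle Y n)
    (h : IsCobdry n (φ.1 - ψ.1)) : IsCobdry n (pullCochain f φ.1 - pullCochain f ψ.1) := by
  cases n with
  | zero => exact congrArg (pullCochain f) h
  | succ n =>
    obtain ⟨χ, hχ⟩ := h
    exact ⟨pullCochain f χ, congrArg (pullCochain f) hχ⟩

/-- The map induced on rational singular cohomology by a continuous map. -/
def pullback (f : C(Y', Y)) (n : ℕ) : SingCoh Y n → SingCoh Y' n :=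
  Quot.map (fun φ => ⟨pullCochain f φ.1, pullCochain_cocycle f φ⟩) (pullCochain_isCobdry f)

end cohomology

/-- The Borel construction `(E × Y) / G` (diagonal action, quotient topology). -/
abbrev Borel (G E Y : Type) [Group G] [MulAction G E] [MulAction G Y] : Type :=
  Quotient (MulAction.orbitRel G (E × Y))

/-- The map of Borel constructions induced by the inclusion of an invariant subset. -/
def borelIncl {G : Type} (E : Type) {Y : Type} [Group G] [MulAction G E] [MulAction G Y]
    [TopologicalSpace E] [TopologicalSpace Y] (Z : SubMulAction G Y) :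
    C(Borel G E Z, Borel G E Y) where
  toFun := Quotient.map' (fun p => (p.1, (p.2 : Y))) (by
    rintro p q ⟨g, rfl⟩
    exact ⟨g, rfl⟩)
  continuous_toFun := Continuous.quotient_map' (by fun_prop) _

/-- The exponential in a normed ring. -/
def ringExp {R : Type} [NormedRing R] (a : R) : R := NormedSpace.exp a

section action

variable (G : Type) {V L : Type} [Group G] [NormedAddCommGroup V] [InnerProductSpace ℝ V]
  [MulAction G V] [NormedAddCommGroup L] [InnerProductSpace ℝ L]

/-- The operator `A` lies in the Lie algebra of the group of operators by which `G` acts: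
every `exp (t A)` is the action of an element of `G`. -/
def InLie (A : V →L[ℝ] V) : Prop := ∀ t : ℝ, ∃ g : G, ∀ x : V, g • x = ringExp (t • A) x

/-- Three orthogonal complex structures `I, J, K` with `I J = K`. -/
def IsHK (cx : Fin 3 → V → V) : Prop :=
  (∀ a, IsLinearMap ℝ (cx a)) ∧ (∀ a x, cx a (cx a x) = -x) ∧ (∀ x, cx 0 (cx 1 x) = cx 2 x) ∧
    ∀ a u v, ⟪cx a u, cx a v⟫ = ⟪u, v⟫

/-- `G` acts linearly, preserving the metric and the three complex structures. -/
def Preserves (cx : Fin 3 → V → V) : Prop :=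
  (∀ g : G, IsLinearMap ℝ fun x : V => g • x) ∧ (∀ (g : G) (u v : V), ⟪g • u, g • v⟫ = ⟪u, v⟫) ∧
    ∀ (g : G) a x, g • cx a x = cx a (g • x)

/-- `ι` is a linear isomorphism from `L` onto the Lie algebra of `G` (as operators on `V`), and
the inner product of `L` is invariant under the adjoint action. -/
def IsLieAlg (ι : L → V → V) : Prop :=
  (∀ A, IsLinearMap ℝ (ι A)) ∧ (∀ x, IsLinearMap ℝ fun A => ι A x) ∧ Function.Injective ι ∧
    (∀ A : V →L[ℝ] V, (∃ B, ι B = A) ↔ InLie G A) ∧
    ∀ (g : G) A A', (∀ x, ι A' (g • x) = g • ι A x) → ‖A'‖ = ‖A‖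

/-- The three equivariant moment maps, with the dual of the Lie algebra identified with `L` by
its inner product: the differential of `⟪μ a, A⟫` at `x` is `⟪cx a (ι A x), ·⟫`. -/
def IsMoment [CompleteSpace V] (cx : Fin 3 → V → V) (ι : L → V → V) (μ : Fin 3 → V → L) : Prop :=
  (∀ a A x, HasGradientAt (fun y => ⟪μ a y, A⟫) (cx a (ι A x)) x) ∧
    ∀ (g : G) a x y, ι (μ a (g • x)) (g • y) = g • ι (μ a x) y

end action

/-- A linear hyperHamiltonian action of `G` on the flat space `V`, with Lie algebra `L`. -/
structure HyperHam (G V L : Type) [Group G] [NormedAddCommGroup V] [InnerProductSpace ℝ V]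
    [CompleteSpace V] [MulAction G V] [NormedAddCommGroup L] [InnerProductSpace ℝ L] where
  cx : Fin 3 → V → V
  iota : L → V → V
  mu : Fin 3 → V → L
  isHK : IsHK cx
  preserves : Preserves G cx
  isLieAlg : IsLieAlg G iota
  isMoment : IsMoment G cx iota mu

variable {G V L : Type} [Group G] [NormedAddCommGroup V] [InnerProductSpace ℝ V]
  [CompleteSpace V] [MulAction G V] [NormedAddCommGroup L] [InnerProductSpace ℝ L]

/-- The norm square of the hyperKaehler moment map. -/
def HyperHam.normSq (D : HyperHam G V L) (x : V) : ℝ := ∑ a, ‖D.mu a x‖ ^ 2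

theorem HyperHam.mu_smul_eq_zero (D : HyperHam G V L) (g : G) (x : V) (a : Fin 3)
    (h : D.mu a x = 0) : D.mu a (g • x) = 0 := by
  apply D.isLieAlg.2.2.1
  funext y
  have h1 := D.isMoment.2 g a x (g⁻¹ • y)
  rw [smul_inv_smul, h, (D.isLieAlg.2.1 _).map_zero, (D.preserves.1 g).map_zero] at h1
  rw [h1, (D.isLieAlg.2.1 _).map_zero]

/-- The zero level set of the hyperKaehler moment map, as an invariant subset. -/
def HyperHam.zeroLevel (D : HyperHam G V L) : SubMulAction G V where
  carrier := {x | ∀ a, D.mu a x = 0}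
  smul_mem' g x hx a := D.mu_smul_eq_zero g x a (hx a)

/-- The Kirwan map in degree `n`, equivariant cohomology being the rational singular cohomology
of the Borel construction with the `G`-space `E` in the role of `EG`. -/
def HyperHam.kirwan (D : HyperHam G V L) (E : Type) [TopologicalSpace E] [MulAction G E] (n : ℕ) :
    SingCoh (Borel G E V) n → SingCoh (Borel G E D.zeroLevel) n :=
  pullback (borelIncl E D.zeroLevel) n

/-- Every forward solution of the negative gradient flow of `f` from `x` stays in one compact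
set. -/
def FlowCompact (f : V → ℝ) : Prop :=
  ∀ x : V, ∃ K : Set V, IsCompact K ∧ ∀ (T : ℝ) (γ : ℝ → V), γ 0 = x →
    (∀ t ∈ Set.Icc 0 T, HasDerivWithinAt γ (-gradient f (γ t)) (Set.Icc 0 T) t) →
    ∀ t ∈ Set.Icc 0 T, γ t ∈ K

end

end Pool.Agent.Lib.MP_146573_gt
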