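import Pool.Agent.Lib.MP_146573_gt.Moment

open scoped RealInnerProductSpace
open Quaternion Matrix

namespace Pool.Agent.Lib.MP_146573_gt

noncomputable section

/-- The three imaginary units giving the complex structures. -/
def uu : Fin 3 → ℍ[ℝ] := ![⟨0, -1, 0, 0⟩, ⟨0, 0, -1, 0⟩, ⟨0, 0, 0, -1⟩]

/-- The central level. -/
def cc : Fin 3 → ℝ := ![-1, 0, 0]

theorem uu0 : uu 0 = ⟨0, -1, 0, 0⟩ := rfl
theorem uu1 : uu 1 = ⟨0, 0, -1, 0⟩ := rfl
theorem uu2 : uu 2 = ⟨0, 0, 0, -1⟩ := rfl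

theorem uu_re (a : Fin 3) : (uu a).re = 0 := by
  fin_cases a <;> rfl

theorem uu_norm (a : Fin 3) : ‖uu a‖ = 1 := by
  have h : ‖uu a‖ * ‖uu a‖ = 1 := by
    rw [← Quaternion.normSq_eq_norm_mul_self, Quaternion.normSq_def']
    fin_cases a <;> simp [uu]
  nlinarith [norm_nonneg (uu a)]

theorem uu_sq (a : Fin 3) : uu a * uu a = -1 := by
  fin_cases a <;> ext <;> simp [uu]

theorem uu_mul : uu 1 * uu 0 = uu 2 := by
  ext <;> simp [uu]

/-- The quadratic part of the moment map for the `Sp(1)` factor. -/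
def ww (u : ℍ[ℝ]) (x : V4) : ℍ[ℝ] :=
  x 0 * u * star (x 0) + x 1 * u * star (x 1) + x 2 * u * star (x 2) + x 3 * u * star (x 3)

theorem ww_re {u : ℍ[ℝ]} (hu : u.re = 0) (x : V4) : (ww u x).re = 0 := by
  simp only [ww, re_add, re_mul, imI_mul, imJ_mul, imK_mul, re_star, imI_star, imJ_star, imK_star,
    hu]
  ring

theorem mom_eq_zero {u : ℍ[ℝ]} (hu : u.re = 0) {c : ℝ} {x : V4} (h : mom u c x = 0) :
    ww u x = 0 ∧ (x 0 * u * star (x 1)).re = c := by
  have h' : (((x 0 * u * star (x 1)).re - c : ℝ) : ℍ[ℝ]) = (1 / 2 : ℝ) • ww u x := sub_eq_zero.mp h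
  have h1 : (x 0 * u * star (x 1)).re - c = 0 := by
    have := congrArg (fun q : ℍ[ℝ] => q.re) h'
    simpa only [re_coe, re_smul, ww_re hu, smul_zero] using this
  rw [h1, Quaternion.coe_zero] at h'
  exact ⟨(smul_eq_zero.mp h'.symm).resolve_left (by norm_num), by linarith⟩

/-- The matrix of real coordinates. -/
def mat (x : V4) : Matrix (Fin 4) (Fin 4) ℝ :=
  !![(x 0).re, (x 1).re, (x 2).re, (x 3).re;
     (x 0).imI, (x 1).imI, (x 2).imI, (x 3).imI;
     (x 0).imJ, (x 1).imJ, (x 2).imJ, (x 3).imJ;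
     (x 0).imK, (x 1).imK, (x 2).imK, (x 3).imK]

/-- The common squared length. -/
def rr (x : V4) : ℝ := (x 0).re ^ 2 + (x 1).re ^ 2 + (x 2).re ^ 2 + (x 3).re ^ 2

theorem mat_mul_transpose {x : V4} (h : ∀ a, ww (uu a) x = 0) :
    mat x * (mat x)ᵀ = rr x • (1 : Matrix (Fin 4) (Fin 4) ℝ) := by
  have a1 := congrArg (fun q : ℍ[ℝ] => q.imI) (h 0)
  have a2 := congrArg (fun q : ℍ[ℝ] => q.imJ) (h 0)
  have a3 := congrArg (fun q : ℍ[ℝ] => q.imK) (h 0)
  have b1 := congrArg (fun q : ℍ[ℝ] => q.imI) (h 1)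
  have b2 := congrArg (fun q : ℍ[ℝ] => q.imJ) (h 1)
  have b3 := congrArg (fun q : ℍ[ℝ] => q.imK) (h 1)
  have c1 := congrArg (fun q : ℍ[ℝ] => q.imI) (h 2)
  have c2 := congrArg (fun q : ℍ[ℝ] => q.imJ) (h 2)
  have c3 := congrArg (fun q : ℍ[ℝ] => q.imK) (h 2)
  simp only [ww, uu0, uu1, uu2, imI_add, imJ_add, imK_add, re_mul, imI_mul, imJ_mul, imK_mul,
    re_star, imI_star, imJ_star, imK_star, imI_zero, imJ_zero, imK_zero] at a1 a2 a3 b1 b2 b3 c1 c2 c3
  ext i j
  fin_cases i <;> fin_cases j <;>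
    simp [mat, rr, Matrix.mul_apply, Fin.sum_univ_four] <;> linarith

theorem transpose_mul_mat {x : V4} (h : ∀ a, ww (uu a) x = 0) (hr : rr x ≠ 0) :
    (mat x)ᵀ * mat x = rr x • (1 : Matrix (Fin 4) (Fin 4) ℝ) := by
  have h1 : ((rr x)⁻¹ • mat x) * (mat x)ᵀ = 1 := by
    rw [Matrix.smul_mul, mat_mul_transpose h, smul_smul, inv_mul_cancel₀ hr, one_smul]
  have h2 := mul_eq_one_comm.mp h1
  rw [Matrix.mul_smul] at h2
  rw [← h2, smul_smul, mul_inv_cancel₀ hr, one_smul]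

theorem inner_cols {x : V4} (h : ∀ a, ww (uu a) x = 0) (hr : rr x ≠ 0) (n m : Fin 4) :
    ⟪x n, x m⟫ = if n = m then rr x else 0 := by
  have h1 := congrFun (congrFun (transpose_mul_mat h hr) n) m
  have h2 : ((mat x)ᵀ * mat x) n m = ⟪x n, x m⟫ := by
    rw [inner_quat]
    fin_cases n <;> fin_cases m <;> simp [mat, Matrix.mul_apply, Fin.sum_univ_four]
  rw [← h2, h1]
  simp [Matrix.one_apply]

theorem eq_zero_of_rr {x : V4} (h : ∀ a, ww (uu a) x = 0) (hr : rr x = 0) : x = 0 := by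
  have h1 := mat_mul_transpose h
  rw [hr, zero_smul] at h1
  have d0 := congrFun (congrFun h1 0) 0
  have d1 := congrFun (congrFun h1 1) 1
  have d2 := congrFun (congrFun h1 2) 2
  have d3 := congrFun (congrFun h1 3) 3
  simp [mat, Matrix.mul_apply, Fin.sum_univ_four] at d0 d1 d2 d3
  have h2 : ⟪x, x⟫ = 0 := by
    simp only [inner_V4, inner_quat]
    linarith
  exact inner_self_eq_zero.mp h2

theorem det_sq {x : V4} (h : ∀ a, ww (uu a) x = 0) : (mat x).det ^ 2 = rr x ^ 4 := by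
  have h1 := congrArg Matrix.det (mat_mul_transpose h)
  rw [Matrix.det_mul, Matrix.det_transpose, Matrix.det_smul, Matrix.det_one] at h1
  rw [sq, h1]
  simp

theorem eq_zero_of_mom_zero {x : V4} (h : ∀ a, mom (uu a) 0 x = 0) : x = 0 := by
  have hw : ∀ a, ww (uu a) x = 0 := fun a => (mom_eq_zero (uu_re a) (h a)).1
  by_contra hx
  have hr : rr x ≠ 0 := fun hr => hx (eq_zero_of_rr hw hr)
  have k0 := (mom_eq_zero (uu_re 0) (h 0)).2
  have k1 := (mom_eq_zero (uu_re 1) (h 1)).2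
  have k2 := (mom_eq_zero (uu_re 2) (h 2)).2
  have i01 := inner_cols hw hr 0 1
  have i00 := inner_cols hw hr 0 0
  have i11 := inner_cols hw hr 1 1
  simp only [inner_quat, if_true] at i01 i00 i11
  rw [if_neg (by decide)] at i01
  simp only [uu0, uu1, uu2, re_mul, imI_mul, imJ_mul, imK_mul, re_star, imI_star, imJ_star,
    imK_star] at k0 k1 k2
  have : rr x * rr x = 0 := by
    nth_rewrite 1 [← i00]
    rw [← i11]
    linear_combination
      ((x 0).re * (x 1).re + (x 0).imI * (x 1).imI + (x 0).imJ * (x 1).imJ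
        + (x 0).imK * (x 1).imK) * i01
      + (-(x 0).re * (x 1).imI + (x 0).imI * (x 1).re - (x 0).imK * (x 1).imJ
        + (x 0).imJ * (x 1).imK) * k0
      + (-(x 0).re * (x 1).imJ + (x 0).imJ * (x 1).re - (x 0).imI * (x 1).imK
        + (x 0).imK * (x 1).imI) * k1
      + (-(x 0).re * (x 1).imK + (x 0).imK * (x 1).re - (x 0).imJ * (x 1).imI
        + (x 0).imI * (x 1).imJ) * k2
  exact hr (mul_self_eq_zero.mp this)

theorem rr_ne_zero {x : V4} (h : ∀ a, mom (uu a) (cc a) x = 0) : rr x ≠ 0 := by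
  intro hr
  have hw : ∀ a, ww (uu a) x = 0 := fun a => (mom_eq_zero (uu_re a) (h a)).1
  have k0 := (mom_eq_zero (uu_re 0) (h 0)).2
  rw [eq_zero_of_rr hw hr] at k0
  simp [cc] at k0

theorem det_ne_zero {x : V4} (h : ∀ a, mom (uu a) (cc a) x = 0) : (mat x).det ≠ 0 := by
  intro hd
  have hw : ∀ a, ww (uu a) x = 0 := fun a => (mom_eq_zero (uu_re a) (h a)).1
  have h1 := det_sq hw
  rw [hd] at h1
  exact rr_ne_zero h (pow_eq_zero_iff (by norm_num) |>.mp (h1.symm.trans (by norm_num)))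

/-- The matrix of left multiplication by a quaternion. -/
def lmat (g : ℍ[ℝ]) : Matrix (Fin 4) (Fin 4) ℝ :=
  !![g.re, -g.imI, -g.imJ, -g.imK;
     g.imI, g.re, -g.imK, g.imJ;
     g.imJ, g.imK, g.re, -g.imI;
     g.imK, -g.imJ, g.imI, g.re]

/-- The matrix of the rotation of the first two columns. -/
def rmat (z : ℂ) : Matrix (Fin 4) (Fin 4) ℝ :=
  !![z.re, z.im, 0, 0;
     -z.im, z.re, 0, 0;
     0, 0, 1, 0;
     0, 0, 0, 1]

theorem mat_rho (g : ℍ[ℝ]) (z : ℂ) (x : V4) : mat (rho g z x) = lmat g * mat x * rmat z := by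
  ext i j
  fin_cases i <;> fin_cases j <;>
    simp [mat, lmat, rmat, Matrix.mul_apply, Fin.sum_univ_four, rho_apply0, rho_apply1, rho_apply2,
      rho_apply3] <;> ring

theorem det_lmat (g : ℍ[ℝ]) :
    (lmat g).det = (g.re ^ 2 + g.imI ^ 2 + g.imJ ^ 2 + g.imK ^ 2) ^ 2 := by
  simp [lmat, Matrix.det_succ_row_zero, Fin.sum_univ_succ, Fin.succAbove]
  ring

theorem det_rmat (z : ℂ) : (rmat z).det = z.re ^ 2 + z.im ^ 2 := by
  simp [rmat, Matrix.det_succ_row_zero, Fin.sum_univ_succ, Fin.succAbove]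
  ring

theorem det_mat_rho {g : ℍ[ℝ]} {z : ℂ} (hg : ‖g‖ = 1) (hz : ‖z‖ = 1) (x : V4) :
    (mat (rho g z x)).det = (mat x).det := by
  rw [mat_rho, Matrix.det_mul, Matrix.det_mul, det_lmat, det_rmat, normSq_one_of_norm hg,
    cx_sq_one_of_norm hz]
  ring

theorem continuous_det_mat : Continuous fun x : V4 => (mat x).det := by
  apply Continuous.matrix_det
  have hc : ∀ n, Continuous fun x : V4 => x n := fun n => (evc n).continuous
  apply continuous_matrix
  intro i j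
  fin_cases i <;> fin_cases j <;> simp [mat] <;>
    first
      | exact Quaternion.continuous_re.comp (hc _)
      | exact Quaternion.continuous_imI.comp (hc _)
      | exact Quaternion.continuous_imJ.comp (hc _)
      | exact Quaternion.continuous_imK.comp (hc _)

/-- The two base points of the level set. -/
def pt (s : ℝ) : V4 := WithLp.toLp 2 ![1, ⟨0, 1, 0, 0⟩, ⟨0, 0, 1, 0⟩, ⟨0, 0, 0, s⟩]

theorem mom_pt {s : ℝ} (hs : s ^ 2 = 1) (a : Fin 3) : mom (uu a) (cc a) (pt s) = 0 := by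
  fin_cases a <;> ext <;> simp [mom, pt, uu, cc] <;> nlinarith

theorem det_pt (s : ℝ) : (mat (pt s)).det = s := by
  simp [mat, pt, Matrix.det_succ_row_zero, Fin.sum_univ_succ, Fin.succAbove]

theorem free_rho {x : V4} (h : ∀ a, mom (uu a) (cc a) x = 0) {g : ℍ[ℝ]} {z : ℂ}
    (hz : ‖z‖ = 1) (hfix : rho g z x = x) : rho g z = 1 := by
  have hw : ∀ a, ww (uu a) x = 0 := fun a => (mom_eq_zero (uu_re a) (h a)).1
  have hr := rr_ne_zero h
  have i22 := inner_cols hw hr 2 2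
  have i00 := inner_cols hw hr 0 0
  have i10 := inner_cols hw hr 1 0
  rw [if_pos rfl] at i22 i00
  rw [if_neg (by decide)] at i10
  have hx2 : x 2 ≠ 0 := by
    intro h0
    rw [h0, inner_zero_left] at i22
    exact hr i22.symm
  have hg : g = 1 := by
    have h2 : g * x 2 = 1 * x 2 := by rw [← rho_apply2 g z x, hfix, one_mul]
    exact mul_right_cancel₀ hx2 h2
  have h0 : z.re • x 0 - z.im • x 1 = x 0 := by
    have := rho_apply0 g z x
    rw [hfix, hg, one_mul] at this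
    exact this.symm
  have h1 : z.re * rr x = rr x := by
    have := congrArg (fun q => ⟪q, x 0⟫) h0
    simp only [inner_sub_left, real_inner_smul_left, i00, i10] at this
    linarith
  have h2 : z.re = 1 := by
    have : (z.re - 1) * rr x = 0 := by linarith
    linarith [(mul_eq_zero.mp this).resolve_right hr]
  have h3 : z.im = 0 := by
    have := cx_sq_one_of_norm hz
    rw [h2] at this
    nlinarith
  have h4 : z = 1 := Complex.ext h2 h3
  rw [hg, h4, rho_one]

end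

end Pool.Agent.Lib.MP_146573_gt
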