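import Pool.Agent.Lib.MP_146573_gt.Level
import Pool.Agent.Lib.MP_146573_gt.Coh

open scoped RealInnerProductSpace
open Quaternion

namespace Pool.Agent.Lib.MP_146573_gt

noncomputable section

/-- The norm square of the moment map at level `c`, in the quaternion parametrisation. -/
def ff (c : Fin 3 → ℝ) (x : V4) : ℝ := ∑ a, ⟪mom (uu a) (c a) x, mom (uu a) (c a) x⟫

theorem differentiable_ff (c : Fin 3 → ℝ) : Differentiable ℝ (ff c) := by
  unfold ff
  apply Differentiable.fun_sum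
  intro a _
  exact (differentiable_mom _ _).inner ℝ (differentiable_mom _ _)

theorem contDiff_mom (u : ℍ[ℝ]) (c : ℝ) : ContDiff ℝ ⊤ (mom u c) := by
  have hc : ∀ n, ContDiff ℝ ⊤ fun x : V4 => x n := fun n => (evc n).contDiff
  have hs : ∀ n, ContDiff ℝ ⊤ fun x : V4 => star (x n) := fun n =>
    starL4.contDiff.comp (hc n)
  have hp : ∀ n m, ContDiff ℝ ⊤ fun x : V4 => x n * u * star (x m) := fun n m =>
    ((hc n).mul contDiff_const).mul (hs m)
  have h1 : ContDiff ℝ ⊤ fun x : V4 => (x 0 * u * star (x 1)).re - c :=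
    (reL.contDiff.comp (hp 0 1)).sub contDiff_const
  have h2 : ContDiff ℝ ⊤ fun x : V4 => (((x 0 * u * star (x 1)).re - c : ℝ) : ℍ[ℝ]) := by
    have : ContDiff ℝ ⊤ fun x : V4 => ((x 0 * u * star (x 1)).re - c) • (1 : ℍ[ℝ]) :=
      h1.smul contDiff_const
    simpa only [smul_one_quat] using this
  exact h2.sub (((((hp 0 0).add (hp 1 1)).add (hp 2 2)).add (hp 3 3)).const_smul (1 / 2 : ℝ))

theorem contDiff_ff (c : Fin 3 → ℝ) : ContDiff ℝ ⊤ (ff c) := by
  unfold ff
  apply ContDiff.sum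
  intro a _
  exact (contDiff_mom _ _).inner ℝ (contDiff_mom _ _)

theorem mom_smul (u : ℍ[ℝ]) (t : ℝ) (x : V4) : mom u 0 (t • x) = (t ^ 2) • mom u 0 x := by
  ext <;> simp [mom] <;> ring

theorem ff_smul (t : ℝ) (x : V4) : ff 0 (t • x) = t ^ 4 * ff 0 x := by
  simp only [ff, Pi.zero_apply, mom_smul, real_inner_smul_left, real_inner_smul_right,
    Finset.mul_sum]
  apply Finset.sum_congr rfl
  intro a _
  ring

theorem ff_pos {x : V4} (hx : x ≠ 0) : 0 < ff 0 x := by
  have h1 : ∀ a ∈ Finset.univ, 0 ≤ ⟪mom (uu a) ((0 : Fin 3 → ℝ) a) x, mom (uu a) ((0 : Fin 3 → ℝ) a) x⟫ :=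
    fun a _ => real_inner_self_nonneg
  refine lt_of_le_of_ne (Finset.sum_nonneg h1) fun h => hx ?_
  apply eq_zero_of_mom_zero
  intro a
  exact inner_self_eq_zero.mp ((Finset.sum_eq_zero_iff_of_nonneg h1).mp h.symm a (Finset.mem_univ a))

theorem exists_lower : ∃ δ : ℝ, 0 < δ ∧ ∀ x : V4, δ * ‖x‖ ^ 4 ≤ ff 0 x := by
  have hne : (Metric.sphere (0 : V4) 1).Nonempty := NormedSpace.sphere_nonempty.mpr zero_le_one
  obtain ⟨y, hy, hmin⟩ := (isCompact_sphere (0 : V4) 1).exists_isMinOn hne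
    (differentiable_ff 0).continuous.continuousOn
  have hy1 : ‖y‖ = 1 := by simpa using hy
  have hy0 : y ≠ 0 := by
    intro h
    rw [h, norm_zero] at hy1
    exact zero_ne_one hy1
  refine ⟨ff 0 y, ff_pos hy0, fun x => ?_⟩
  by_cases hx : x = 0
  · have := ff_smul 0 x
    rw [zero_smul] at this
    rw [hx, this]
    simp
  · have hn : ‖x‖ ≠ 0 := norm_ne_zero_iff.mpr hx
    have h1 : ‖x‖⁻¹ • x ∈ Metric.sphere (0 : V4) 1 := by
      simp [norm_smul, hn]
    have h2 : ff 0 y ≤ ff 0 (‖x‖⁻¹ • x) := hmin h1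
    have h3 : ff 0 x = ‖x‖ ^ 4 * ff 0 (‖x‖⁻¹ • x) := by
      rw [← ff_smul, smul_smul, mul_inv_cancel₀ hn, one_smul]
    rw [h3, mul_comm]
    exact mul_le_mul_of_nonneg_left h2 (by positivity)

theorem ff_zero_le (c : Fin 3 → ℝ) (x : V4) : ff 0 x ≤ 2 * ff c x + 2 * ∑ a, c a ^ 2 := by
  simp only [ff, Finset.mul_sum, ← Finset.sum_add_distrib]
  apply Finset.sum_le_sum
  intro a _
  have h : mom (uu a) ((0 : Fin 3 → ℝ) a) x = mom (uu a) (c a) x + (c a : ℍ[ℝ]) := by
    ext <;> simp [mom]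
    ring
  rw [h]
  simp only [inner_quat, re_add, imI_add, imJ_add, imK_add, re_coe, imI_coe, imJ_coe, imK_coe]
  nlinarith [sq_nonneg ((mom (uu a) (c a) x).re - c a), sq_nonneg (mom (uu a) (c a) x).imI,
    sq_nonneg (mom (uu a) (c a) x).imJ, sq_nonneg (mom (uu a) (c a) x).imK]

theorem isCompact_sublevel (c : Fin 3 → ℝ) (C : ℝ) : IsCompact {x : V4 | ff c x ≤ C} := by
  obtain ⟨δ, hδ, hl⟩ := exists_lower
  apply Metric.isCompact_of_isClosed_isBounded
  · exact isClosed_le (differentiable_ff c).continuous continuous_const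
  · rw [isBounded_iff_forall_norm_le]
    refine ⟨1 + |2 * C + 2 * ∑ a, c a ^ 2| / δ, fun x hx => ?_⟩
    have hx' : ff c x ≤ C := hx
    have h1 : δ * ‖x‖ ^ 4 ≤ |2 * C + 2 * ∑ a, c a ^ 2| := by
      linarith [hl x, ff_zero_le c x, le_abs_self (2 * C + 2 * ∑ a, c a ^ 2)]
    have h2 : ‖x‖ ^ 4 ≤ |2 * C + 2 * ∑ a, c a ^ 2| / δ := by
      rw [le_div_iff₀ hδ]
      linarith
    nlinarith [sq_nonneg (‖x‖ ^ 2 - 1 / 2), sq_nonneg (‖x‖ - 1 / 2)]

theorem isProperMap_ff (c : Fin 3 → ℝ) : IsProperMap (ff c) := by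
  rw [isProperMap_iff_isCompact_preimage]
  refine ⟨(differentiable_ff c).continuous, fun K hK => ?_⟩
  obtain ⟨C, hC⟩ := hK.bddAbove
  exact (isCompact_sublevel c C).of_isClosed_subset
    (hK.isClosed.preimage (differentiable_ff c).continuous) fun x hx => hC hx

theorem grp_smul (u : grp) (x : V4) : u • x = (u.1 : V4 →L[ℝ] V4) x := rfl

theorem continuousMul_op {V : Type} [NormedAddCommGroup V] [InnerProductSpace ℝ V] :
    ContinuousMul (V →L[ℝ] V) := inferInstance

theorem grp_topGroup : IsTopologicalGroup grp := by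
  have : ContinuousMul (V4 →L[ℝ] V4) := continuousMul_op (V := V4)
  infer_instance

theorem grp_continuousSMul : ContinuousSMul grp V4 := ⟨by
  have h : Continuous fun p : grp × V4 => (p.1.1 : V4 →L[ℝ] V4) :=
    Units.continuous_val.comp (continuous_subtype_val.comp continuous_fst)
  exact Continuous.clm_apply (𝕜 := ℝ) (E := V4) (F := V4) h continuous_snd⟩

theorem grp_faithful : FaithfulSMul grp V4 := ⟨fun {u v} h => by
  apply Subtype.ext
  apply Units.ext
  ext1 x
  exact h x⟩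

theorem phi_injective : Function.Injective phi := fun p q h => by
  rw [← psi_phi p, h, psi_phi]

/-- The counterexample. -/
def model : HyperHam grp V4 ℍ[ℝ] where
  cx a := rmul (uu a)
  iota p := phi p
  mu a := mom (uu a) (cc a)
  isHK := by
    refine ⟨fun a => (rmul (uu a)).toLinearMap.isLinear, fun a x => ?_, fun x => ?_,
      fun a u v => inner_rmul (uu_norm a) u v⟩
    · have h : rmul (uu a) * rmul (uu a) = -1 := by rw [rmul_mul, uu_sq, rmul_neg_one]
      exact congrArg (fun T : V4 →L[ℝ] V4 => T x) h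
    · have h : rmul (uu 0) * rmul (uu 1) = rmul (uu 2) := by rw [rmul_mul, uu_mul]
      exact congrArg (fun T : V4 →L[ℝ] V4 => T x) h
  preserves := by
    refine ⟨fun u => (u.1 : V4 →L[ℝ] V4).toLinearMap.isLinear, ?_, ?_⟩
    · rintro ⟨u, g, z, hg, hz, h⟩ x y
      rw [grp_smul, grp_smul, h]
      exact inner_rho hg hz x y
    · rintro ⟨u, g, z, hg, hz, h⟩ a x
      rw [grp_smul, grp_smul, h]
      exact congrArg (fun T : V4 →L[ℝ] V4 => T x) (op_rmul _ _ _ (uu a))
  isLieAlg := by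
    refine ⟨fun p => (phi p).toLinearMap.isLinear, fun x => ⟨fun p q => ?_, fun c p => ?_⟩,
      fun p q h => phi_injective (DFunLike.coe_injective h), fun A => ⟨?_, fun h => ?_⟩, ?_⟩
    · exact congrArg (fun T : V4 →L[ℝ] V4 => T x) (map_add phi p q)
    · exact congrArg (fun T : V4 →L[ℝ] V4 => T x) (map_smul phi c p)
    · rintro ⟨p, hp⟩ t
      have hA : phi p = A := DFunLike.coe_injective hp
      obtain ⟨u, hu, h⟩ := exp_phi_mem p t
      refine ⟨⟨u, hu⟩, fun x => ?_⟩
      rw [grp_smul, h, hA]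
      rfl
    · obtain ⟨p, hp⟩ := mem_range_phi A (fun t => by
        obtain ⟨u, hu⟩ := h t
        exact ⟨u.1, u.2, ContinuousLinearMap.ext hu⟩)
      exact ⟨p, congrArg DFunLike.coe hp⟩
    · rintro ⟨u, g, z, hg, hz, h⟩ p p' hp
      have h1 : phi p' * rho g z = rho g z * phi p := by
        ext1 x
        have := hp x
        rw [grp_smul, grp_smul, h] at this
        exact this
      have h2 : phi p' = phi (g * p * star g) := by
        rw [phi_conj hg hz, ← h1, mul_assoc, rho_mul_inv hg hz, mul_one]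
      rw [phi_injective h2]
      simp [hg]
  isMoment := by
    refine ⟨fun a p x => ?_, ?_⟩
    · rw [hasGradientAt_iff_hasFDerivAt]
      exact hasFDerivAt_mom (uu_re a) (cc a) p x
    · rintro ⟨u, g, z, hg, hz, h⟩ a x y
      beta_reduce
      rw [grp_smul, grp_smul, grp_smul, h, mom_rho (uu_re a) _ hg hz]
      exact congrArg (fun T : V4 →L[ℝ] V4 => T y) (rho_phi_conj (z := z) hg _)

theorem model_normSq : model.normSq = ff cc := by
  funext x
  have h : ∑ a, ‖mom (uu a) (cc a) x‖ ^ 2 = ff cc x := by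
    simp only [ff, real_inner_self_eq_norm_sq]
  exact h

theorem mem_zeroLevel {x : V4} : x ∈ model.zeroLevel ↔ ∀ a, mom (uu a) (cc a) x = 0 := Iff.rfl

theorem model_free (u : grp) (x : V4) (hx : x ∈ model.zeroLevel) (hfix : u • x = x) : u = 1 := by
  obtain ⟨u, g, z, hg, hz, h⟩ := u
  apply Subtype.ext
  apply Units.ext
  rw [grp_smul, h] at hfix
  exact h.trans (free_rho (mem_zeroLevel.mp hx) hz hfix)

theorem model_not_surjective (E : Type) [TopologicalSpace E] [MulAction grp E]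
    [PathConnectedSpace E] : ¬ Function.Surjective (model.kirwan E 0) := by
  let D : Borel grp E model.zeroLevel → ℝ :=
    Quotient.lift (fun p : E × model.zeroLevel => (mat (p.2 : V4)).det) (by
      rintro p q ⟨⟨u, g, z, hg, hz, h⟩, rfl⟩
      have h1 : (mat ((u : V4 →L[ℝ] V4) (q.2 : V4))).det = (mat (q.2 : V4)).det := by
        rw [h]
        exact det_mat_rho hg hz _
      exact h1)
  have hD : Continuous D :=
    Continuous.quotient_lift (continuous_det_mat.comp (by fun_prop)) _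
  have h0 : ∀ y, D y ≠ 0 := by
    rintro ⟨e, x, hx⟩
    exact det_ne_zero (mem_zeroLevel.mp hx)
  obtain ⟨e⟩ : Nonempty E := inferInstance
  refine not_surjective_pullback_zero _ D hD h0
    (Quotient.mk _ (e, ⟨pt 1, mem_zeroLevel.mpr (mom_pt (by norm_num))⟩))
    (Quotient.mk _ (e, ⟨pt (-1), mem_zeroLevel.mpr (mom_pt (by norm_num))⟩)) ?_ ?_
  · have h1 : 0 < (mat (pt 1)).det := by rw [det_pt]; norm_num
    exact h1
  · have h1 : (mat (pt (-1))).det < 0 := by rw [det_pt]; norm_num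
    exact h1

theorem model_flowCompact : FlowCompact (ff cc) := by
  intro x
  refine ⟨{y | ff cc y ≤ ff cc x}, isCompact_sublevel cc _, ?_⟩
  intro T γ h0 hγ t ht
  have := flow_le (ff cc) (differentiable_ff cc) T γ hγ t ht
  rw [h0] at this
  exact this

theorem finrank_V4 : Module.finrank ℝ V4 = 16 := by
  rw [(WithLp.linearEquiv 2 ℝ (Fin 4 → Quaternion ℝ)).finrank_eq, Module.finrank_pi_fintype]
  simp [Quaternion.finrank_eq_four]

end

end Pool.Agent.Lib.MP_146573_gt
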